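import Mathlib

set_option autoImplicit false

namespace Pool.Agent.LibBenzel

/-- a ribbon tile with cells `(l,x0), (l+1,x1), (l+2,x2)` -/
@[ext] structure Code where
  l : ℤ
  x0 : ℤ
  x1 : ℤ
  x2 : ℤ

namespace Code

def ok (t : Code) : Prop :=
  (t.x1 = t.x0 ∨ t.x1 = t.x0 + 1) ∧ (t.x2 = t.x1 ∨ t.x2 = t.x1 + 1)

def has (t : Code) (l x : ℤ) : Prop :=
  (t.l = l ∧ t.x0 = x) ∨ (t.l + 1 = l ∧ t.x1 = x) ∨ (t.l + 2 = l ∧ t.x2 = x)

def inR (R : ℤ → ℤ → Prop) (t : Code) : Prop :=
  R t.l t.x0 ∧ R (t.l + 1) t.x1 ∧ R (t.l + 2) t.x2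

theorem has0 (t : Code) : t.has t.l t.x0 := Or.inl ⟨rfl, rfl⟩
theorem has1 (t : Code) : t.has (t.l + 1) t.x1 := Or.inr (Or.inl ⟨rfl, rfl⟩)
theorem has2 (t : Code) : t.has (t.l + 2) t.x2 := Or.inr (Or.inr ⟨rfl, rfl⟩)

theorem inR_iff {R : ℤ → ℤ → Prop} {t : Code} : t.inR R ↔ ∀ l x, t.has l x → R l x := by
  constructor
  · rintro ⟨h0, h1, h2⟩ l x (⟨rfl, rfl⟩ | ⟨rfl, rfl⟩ | ⟨rfl, rfl⟩)
    · exact h0
    · exact h1
    · exact h2
  · intro h
    exact ⟨h _ _ t.has0, h _ _ t.has1, h _ _ t.has2⟩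

end Code

/-- exact covers of the region `R` by ribbon tiles -/
structure IsT (R : ℤ → ℤ → Prop) (P : Set Code) : Prop where
  ok : ∀ t ∈ P, t.ok
  inR : ∀ t ∈ P, ∀ l x, t.has l x → R l x
  cov : ∀ l x, R l x → ∃ t ∈ P, t.has l x
  uni : ∀ t ∈ P, ∀ t' ∈ P, ∀ l x, t.has l x → t'.has l x → t = t'

/-- one block of three columns, followed by the region `Rest` -/
def blk (L α γ a h : ℤ) (Rest : ℤ → ℤ → Prop) (l x : ℤ) : Prop :=
  (l = L ∧ α ≤ x ∧ x ≤ α + a ∧ x ≠ α + h) ∨ (l = L + 1 ∧ α ≤ x ∧ x ≤ α + a) ∨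
    (l = L + 2 ∧ α + γ ≤ x ∧ x ≤ α + γ + a) ∨ Rest l x

/-- remove one cell in column `L` -/
def rm (L X : ℤ) (Rest : ℤ → ℤ → Prop) (l x : ℤ) : Prop := Rest l x ∧ ¬ (l = L ∧ x = X)

/-- the tiles of a block -/
def bt (L α γ a h s X : ℤ) : Set Code :=
  {t | (t.l = L ∧ α ≤ t.x0 ∧ t.x0 ≤ α + a ∧ t.x0 ≠ α + h ∧
      (((α + s ≤ t.x0 ∧ t.x0 < α + h) ∧ t.x1 = t.x0 + 1) ∨
        (¬ (α + s ≤ t.x0 ∧ t.x0 < α + h) ∧ t.x1 = t.x0)) ∧ t.x2 = t.x1 + γ) ∨
    (t.l = L + 1 ∧ t.x0 = α + s ∧ t.x1 = α + s + γ ∧ t.x2 = X)}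

section

variable {L α γ a h : ℤ} {Rest : ℤ → ℤ → Prop}

theorem isT_blk_of (hγ : γ = 0 ∨ γ = 1) (hh : 0 ≤ h) (hha : h ≤ a)
    (hRest : ∀ l x, Rest l x → L + 3 ≤ l) {s X : ℤ} (hs : 0 ≤ s) (hsh : s ≤ h)
    (hX : X = α + s + γ ∨ X = α + s + γ + 1) (hXR : Rest (L + 3) X) {P : Set Code}
    (hP : IsT (rm (L + 3) X Rest) P) : IsT (blk L α γ a h Rest) (bt L α γ a h s X ∪ P) := by
  have hPl : ∀ t ∈ P, L + 3 ≤ t.l := fun t ht => hRest _ _ (hP.inR t ht _ _ t.has0).1
  refine ⟨?_, ?_, ?_, ?_⟩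
  · rintro t (ht | ht)
    · rcases ht with ⟨h1, h2, h3, h4, h5, h6⟩ | ⟨h1, h2, h3, h4⟩
      · unfold Code.ok; omega
      · unfold Code.ok; omega
    · exact hP.ok t ht
  · rintro t (ht | ht) l x htx
    · unfold blk
      rcases ht with ⟨h1, h2, h3, h4, h5, h6⟩ | ⟨h1, h2, h3, h4⟩
      · rcases htx with ⟨e1, e2⟩ | ⟨e1, e2⟩ | ⟨e1, e2⟩
        · left; omega
        · right; left; omega
        · right; right; left; omega
      · rcases htx with ⟨e1, e2⟩ | ⟨e1, e2⟩ | ⟨e1, e2⟩
        · right; left; omega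
        · right; right; left; omega
        · right; right; right
          have e3 : l = L + 3 := by omega
          have e4 : x = X := by omega
          rw [e3, e4]; exact hXR
    · right; right; right
      exact (hP.inR t ht l x htx).1
  · rintro l x (⟨h1, h2, h3, h4⟩ | ⟨h1, h2, h3⟩ | ⟨h1, h2, h3⟩ | h1)
    · by_cases hc : α + s ≤ x ∧ x < α + h
      · refine ⟨⟨L, x, x + 1, x + 1 + γ⟩, Or.inl (Or.inl ⟨rfl, h2, h3, h4, Or.inl ⟨hc, rfl⟩, rfl⟩), ?_⟩
        exact Or.inl ⟨h1.symm, rfl⟩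
      · refine ⟨⟨L, x, x, x + γ⟩, Or.inl (Or.inl ⟨rfl, h2, h3, h4, Or.inr ⟨hc, rfl⟩, rfl⟩), ?_⟩
        exact Or.inl ⟨h1.symm, rfl⟩
    · by_cases hc : x = α + s
      · refine ⟨⟨L + 1, α + s, α + s + γ, X⟩, Or.inl (Or.inr ⟨rfl, rfl, rfl, rfl⟩), ?_⟩
        exact Or.inl ⟨h1.symm, hc.symm⟩
      · by_cases hc2 : α + s < x ∧ x ≤ α + h
        · refine ⟨⟨L, x - 1, x, x + γ⟩, Or.inl (Or.inl ⟨rfl, by simp only; omega, by simp only; omega,
            by simp only; omega, Or.inl ⟨by simp only; omega, by simp only; omega⟩, rfl⟩), ?_⟩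
          exact Or.inr (Or.inl ⟨h1.symm, rfl⟩)
        · refine ⟨⟨L, x, x, x + γ⟩, Or.inl (Or.inl ⟨rfl, by simp only; omega, by simp only; omega,
            by simp only; omega, Or.inr ⟨by simp only; omega, by simp only⟩, rfl⟩), ?_⟩
          exact Or.inr (Or.inl ⟨h1.symm, rfl⟩)
    · by_cases hc : x = α + s + γ
      · refine ⟨⟨L + 1, α + s, α + s + γ, X⟩, Or.inl (Or.inr ⟨rfl, rfl, rfl, rfl⟩), ?_⟩
        exact Or.inr (Or.inl ⟨by simp only; omega, hc.symm⟩)
      · by_cases hc2 : α + s + γ < x ∧ x ≤ α + γ + h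
        · refine ⟨⟨L, x - γ - 1, x - γ, x⟩, Or.inl (Or.inl ⟨rfl, by simp only; omega,
            by simp only; omega, by simp only; omega,
            Or.inl ⟨by simp only; omega, by simp only; omega⟩, by simp only; omega⟩), ?_⟩
          exact Or.inr (Or.inr ⟨h1.symm, rfl⟩)
        · refine ⟨⟨L, x - γ, x - γ, x⟩, Or.inl (Or.inl ⟨rfl, by simp only; omega,
            by simp only; omega, by simp only; omega,
            Or.inr ⟨by simp only; omega, by simp only⟩, by simp only; omega⟩), ?_⟩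
          exact Or.inr (Or.inr ⟨h1.symm, rfl⟩)
    · by_cases hc : l = L + 3 ∧ x = X
      · refine ⟨⟨L + 1, α + s, α + s + γ, X⟩, Or.inl (Or.inr ⟨rfl, rfl, rfl, rfl⟩), ?_⟩
        exact Or.inr (Or.inr ⟨by simp only; omega, hc.2.symm⟩)
      · obtain ⟨t, ht, htx⟩ := hP.cov l x ⟨h1, hc⟩
        exact ⟨t, Or.inr ht, htx⟩
  · rintro t (ht | ht) t' (ht' | ht') l x hx hx'
    · unfold Code.has at hx hx'
      rcases ht with ⟨h1, h2, h3, h4, h5, h6⟩ | ⟨h1, h2, h3, h4⟩ <;>
        rcases ht' with ⟨k1, k2, k3, k4, k5, k6⟩ | ⟨k1, k2, k3, k4⟩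
      · apply Code.ext <;> omega
      · exfalso; omega
      · exfalso; omega
      · apply Code.ext <;> omega
    · exfalso
      have hl := hPl t' ht'
      have hr := hP.inR t' ht' l x hx'
      have hl2 : L + 3 ≤ l := by
        unfold Code.has at hx'; omega
      have hh2 : l = L + 3 ∧ x = X := by
        unfold Code.has at hx
        rcases ht with ⟨h1, h2, h3, h4, h5, h6⟩ | ⟨h1, h2, h3, h4⟩ <;> omega
      exact hr.2 hh2
    · exfalso
      have hl := hPl t ht
      have hr := hP.inR t ht l x hx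
      have hl2 : L + 3 ≤ l := by
        unfold Code.has at hx; omega
      have hh2 : l = L + 3 ∧ x = X := by
        unfold Code.has at hx'
        rcases ht' with ⟨h1, h2, h3, h4, h5, h6⟩ | ⟨h1, h2, h3, h4⟩ <;> omega
      exact hr.2 hh2
    · exact hP.uni t ht t' ht' l x hx hx'

/-- every exact cover of a block followed by `Rest` decomposes -/
theorem exists_of_isT_blk (hγ : γ = 0 ∨ γ = 1) (hh : 0 ≤ h) (hha : h ≤ a)
    (hRest : ∀ l x, Rest l x → L + 3 ≤ l) {Q : Set Code}
    (hQ : IsT (blk L α γ a h Rest) Q) :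
    ∃ s X : ℤ, 0 ≤ s ∧ s ≤ h ∧ (X = α + s + γ ∨ X = α + s + γ + 1) ∧ Rest (L + 3) X ∧
      ∃ P, IsT (rm (L + 3) X Rest) P ∧ Q = bt L α γ a h s X ∪ P := by
  have hlow : ∀ l x, blk L α γ a h Rest l x → L ≤ l := by
    rintro l x (⟨h1, h2, h3, h4⟩ | ⟨h1, h2, h3⟩ | ⟨h1, h2, h3⟩ | h1)
    · omega
    · omega
    · omega
    · have := hRest _ _ h1; omega
  have hc0 : ∀ x, blk L α γ a h Rest L x ↔ (α ≤ x ∧ x ≤ α + a ∧ x ≠ α + h) := by
    intro x
    constructor
    · rintro (⟨h1, h2, h3, h4⟩ | ⟨h1, h2, h3⟩ | ⟨h1, h2, h3⟩ | h1)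
      · omega
      · omega
      · omega
      · have := hRest _ _ h1; omega
    · intro hx; exact Or.inl ⟨rfl, hx⟩
  have hc1 : ∀ x, blk L α γ a h Rest (L + 1) x ↔ (α ≤ x ∧ x ≤ α + a) := by
    intro x
    constructor
    · rintro (⟨h1, h2, h3, h4⟩ | ⟨h1, h2, h3⟩ | ⟨h1, h2, h3⟩ | h1)
      · omega
      · omega
      · omega
      · have := hRest _ _ h1; omega
    · intro hx; exact Or.inr (Or.inl ⟨rfl, hx⟩)
  have hc2 : ∀ x, blk L α γ a h Rest (L + 2) x ↔ (α + γ ≤ x ∧ x ≤ α + γ + a) := by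
    intro x
    constructor
    · rintro (⟨h1, h2, h3, h4⟩ | ⟨h1, h2, h3⟩ | ⟨h1, h2, h3⟩ | h1)
      · omega
      · omega
      · omega
      · have := hRest _ _ h1; omega
    · intro hx; exact Or.inr (Or.inr (Or.inl ⟨rfl, hx⟩))
  have hc3 : ∀ l x, L + 3 ≤ l → (blk L α γ a h Rest l x ↔ Rest l x) := by
    intro l x hl
    constructor
    · rintro (⟨h1, h2, h3, h4⟩ | ⟨h1, h2, h3⟩ | ⟨h1, h2, h3⟩ | h1)
      · omega
      · omega
      · omega
      · exact h1
    · intro hx; exact Or.inr (Or.inr (Or.inr hx))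
  have hl : ∀ t ∈ Q, L ≤ t.l := fun t ht => hlow _ _ (hQ.inR t ht _ _ t.has0)
  -- tiles starting in column `L`
  have hA : ∀ x, α ≤ x → x ≤ α + a → x ≠ α + h → ∃ t ∈ Q, t.l = L ∧ t.x0 = x := by
    intro x h1 h2 h3
    obtain ⟨t, ht, htx⟩ := hQ.cov L x ((hc0 x).2 ⟨h1, h2, h3⟩)
    have := hl t ht
    refine ⟨t, ht, ?_⟩
    unfold Code.has at htx
    omega
  -- tiles through column `L+1`
  have hB : ∀ y, α ≤ y → y ≤ α + a → ∃ t ∈ Q, (t.l = L ∧ t.x1 = y) ∨ (t.l = L + 1 ∧ t.x0 = y) := by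
    intro y h1 h2
    obtain ⟨t, ht, htx⟩ := hQ.cov (L + 1) y ((hc1 y).2 ⟨h1, h2⟩)
    have := hl t ht
    refine ⟨t, ht, ?_⟩
    unfold Code.has at htx
    omega
  have hB' : ∀ t ∈ Q, t.l = L → α ≤ t.x1 ∧ t.x1 ≤ α + a := by
    intro t ht h1
    have h2 := hQ.inR t ht _ _ t.has1
    rw [h1] at h2
    exact (hc1 _).1 h2
  have hA' : ∀ t ∈ Q, t.l = L → α ≤ t.x0 ∧ t.x0 ≤ α + a ∧ t.x0 ≠ α + h := by
    intro t ht h1
    have h2 := hQ.inR t ht _ _ t.has0
    rw [h1] at h2
    exact (hc0 _).1 h2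
  have hA1' : ∀ t ∈ Q, t.l = L + 1 → α ≤ t.x0 ∧ t.x0 ≤ α + a := by
    intro t ht h1
    have h2 := hQ.inR t ht _ _ t.has0
    rw [h1] at h2
    exact (hc1 _).1 h2
  have hC' : ∀ t ∈ Q, t.l = L → α + γ ≤ t.x2 ∧ t.x2 ≤ α + γ + a := by
    intro t ht h1
    have h2 := hQ.inR t ht _ _ t.has2
    rw [h1] at h2
    exact (hc2 _).1 h2
  have hC1' : ∀ t ∈ Q, t.l = L + 1 → α + γ ≤ t.x1 ∧ t.x1 ≤ α + γ + a := by
    intro t ht h1
    have h2 := hQ.inR t ht _ _ t.has1
    rw [h1, show L + 1 + 1 = L + 2 by ring] at h2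
    exact (hc2 _).1 h2
  -- all tiles through column `L+1` go straight
  have hz : ∀ t ∈ Q, (t.l = L → t.x2 = t.x1 + γ) ∧ (t.l = L + 1 → t.x1 = t.x0 + γ) := by
    have key : ∀ k : ℕ, (k : ℤ) ≤ a → ∀ t ∈ Q,
        (t.l = L → t.x1 = (if γ = 1 then α + k else α + a - k) → t.x2 = t.x1 + γ) ∧
        (t.l = L + 1 → t.x0 = (if γ = 1 then α + k else α + a - k) → t.x1 = t.x0 + γ) := by
      intro k
      induction k with
      | zero =>
        intro hk t ht
        have hok := hQ.ok t ht
        unfold Code.ok at hok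
        refine ⟨fun h1 h2 => ?_, fun h1 h2 => ?_⟩
        · have h3 := hC' t ht h1
          rcases hγ with hγ | hγ
          · rw [if_neg (by omega)] at h2; omega
          · rw [if_pos hγ] at h2; omega
        · have h3 := hC1' t ht h1
          rcases hγ with hγ | hγ
          · rw [if_neg (by omega)] at h2; omega
          · rw [if_pos hγ] at h2; omega
      | succ k ih =>
        intro hk t ht
        have hok := hQ.ok t ht
        unfold Code.ok at hok
        push_cast at hk
        have ih' := ih (by omega)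
        -- the previous tile
        obtain ⟨t', ht', h'⟩ := hB (if γ = 1 then α + k else α + a - k)
          (by split_ifs <;> omega) (by split_ifs <;> omega)
        have ih2 := ih' t' ht'
        have hpos : (t'.l = L ∧ t'.x2 = (if γ = 1 then α + k else α + a - k) + γ) ∨
            (t'.l = L + 1 ∧ t'.x1 = (if γ = 1 then α + k else α + a - k) + γ) := by
          rcases h' with ⟨h1, h2⟩ | ⟨h1, h2⟩
          · left; refine ⟨h1, ?_⟩; rw [ih2.1 h1 h2, h2]
          · right; refine ⟨h1, ?_⟩; rw [ih2.2 h1 h2, h2]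
        have hhas : t'.has (L + 2) ((if γ = 1 then α + k else α + a - k) + γ) := by
          unfold Code.has
          rcases hpos with ⟨h1, h2⟩ | ⟨h1, h2⟩
          · right; right; exact ⟨by omega, h2⟩
          · right; left; exact ⟨by omega, h2⟩
        refine ⟨fun h1 h2 => ?_, fun h1 h2 => ?_⟩
        · by_contra hne
          have h3 : t.has (L + 2) ((if γ = 1 then α + k else α + a - k) + γ) := by
            unfold Code.has
            right; right
            refine ⟨by omega, ?_⟩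
            rcases hγ with hγ | hγ
            · rw [if_neg (by omega)] at h2 ⊢; push_cast at h2; omega
            · rw [if_pos hγ] at h2 ⊢; push_cast at h2; omega
          have h4 := hQ.uni t ht t' ht' _ _ h3 hhas
          subst h4
          rcases h' with ⟨h5, h6⟩ | ⟨h5, h6⟩
          · rw [h6] at h2
            split_ifs at h2 <;> push_cast at h2 <;> omega
          · omega
        · by_contra hne
          have h3 : t.has (L + 2) ((if γ = 1 then α + k else α + a - k) + γ) := by
            unfold Code.has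
            right; left
            refine ⟨by omega, ?_⟩
            rcases hγ with hγ | hγ
            · rw [if_neg (by omega)] at h2 ⊢; push_cast at h2; omega
            · rw [if_pos hγ] at h2 ⊢; push_cast at h2; omega
          have h4 := hQ.uni t ht t' ht' _ _ h3 hhas
          subst h4
          rcases h' with ⟨h5, h6⟩ | ⟨h5, h6⟩
          · omega
          · rw [h6] at h2
            split_ifs at h2 <;> push_cast at h2 <;> omega
    intro t ht
    refine ⟨fun h1 => ?_, fun h1 => ?_⟩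
    · have h2 := hB' t ht h1
      rcases hγ with hγ | hγ
      · refine (key (α + a - t.x1).toNat (by omega) t ht).1 h1 ?_
        rw [if_neg (by omega)]; omega
      · refine (key (t.x1 - α).toNat (by omega) t ht).1 h1 ?_
        rw [if_pos hγ]; omega
    · have h2 := hA1' t ht h1
      rcases hγ with hγ | hγ
      · refine (key (α + a - t.x0).toNat (by omega) t ht).2 h1 ?_
        rw [if_neg (by omega)]; omega
      · refine (key (t.x0 - α).toNat (by omega) t ht).2 h1 ?_
        rw [if_pos hγ]; omega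
  -- no tile starts in column `L+2`
  have hno : ∀ t ∈ Q, t.l ≠ L + 2 := by
    intro t ht h1
    have h2 := hQ.inR t ht _ _ t.has0
    rw [h1] at h2
    have h3 := (hc2 _).1 h2
    obtain ⟨t', ht', h'⟩ := hB (t.x0 - γ) (by omega) (by omega)
    have hz' := hz t' ht'
    have h4 : t'.has (L + 2) t.x0 := by
      unfold Code.has
      rcases h' with ⟨h5, h6⟩ | ⟨h5, h6⟩
      · right; right; have := hz'.1 h5; omega
      · right; left; have := hz'.2 h5; omega
    have h7 : t.has (L + 2) t.x0 := by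
      unfold Code.has; left; exact ⟨h1, rfl⟩
    have h8 := hQ.uni t ht t' ht' _ _ h7 h4
    subst h8
    omega
  -- the special tile
  have hex : ∃ k : ℕ, (k : ℤ) ≤ a ∧ ∃ t ∈ Q, t.l = L + 1 ∧ t.x0 = α + k := by
    by_contra hcon
    push Not at hcon
    have key : ∀ k : ℕ, (k : ℤ) ≤ a → ∀ t ∈ Q, t.l = L → t.x1 = α + k → t.x0 = α + k := by
      intro k
      induction k with
      | zero =>
        intro hk t ht h1 h2
        have hok := hQ.ok t ht
        unfold Code.ok at hok
        have := hA' t ht h1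
        push_cast at h2 ⊢
        omega
      | succ k ih =>
        intro hk t ht h1 h2
        push_cast at hk h2 ⊢
        obtain ⟨t', ht', h'⟩ := hB (α + k) (by omega) (by omega)
        rcases h' with ⟨h5, h6⟩ | ⟨h5, h6⟩
        · have h7 := ih (by omega) t' ht' h5 h6
          have hok := hQ.ok t ht
          unfold Code.ok at hok
          by_contra hne
          have h8 : t.has L (α + k) := by unfold Code.has; left; omega
          have h9 : t'.has L (α + k) := by unfold Code.has; left; omega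
          have h10 := hQ.uni t ht t' ht' _ _ h8 h9
          subst h10
          omega
        · exact absurd h6 (hcon k (by omega) t' ht' h5)
    obtain ⟨t', ht', h'⟩ := hB (α + h) (by omega) (by omega)
    rcases h' with ⟨h5, h6⟩ | ⟨h5, h6⟩
    · have h7 := key h.toNat (by omega) t' ht' h5 (by omega)
      have h8 := (hA' t' ht' h5).2.2
      omega
    · exact absurd (by omega : t'.x0 = α + (h.toNat : ℤ)) (hcon h.toNat (by omega) t' ht' h5)
  -- take the lowest one
  classical
  let s := Nat.find hex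
  obtain ⟨hs1, t0, ht0, ht0l, ht0x⟩ := Nat.find_spec hex
  have hmin : ∀ k : ℕ, k < s → ¬ ((k : ℤ) ≤ a ∧ ∃ t ∈ Q, t.l = L + 1 ∧ t.x0 = α + k) :=
    fun k hk => Nat.find_min hex hk
  change (s : ℤ) ≤ a at hs1
  change t0.x0 = α + (s : ℤ) at ht0x
  have low : ∀ k : ℕ, k < s → ∀ t ∈ Q, t.l = L → t.x1 = α + k → t.x0 = α + k := by
    intro k
    induction k with
    | zero =>
      intro hk t ht h1 h2
      have hok := hQ.ok t ht
      unfold Code.ok at hok
      have := hA' t ht h1
      push_cast at h2 ⊢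
      omega
    | succ k ih =>
      intro hk t ht h1 h2
      push_cast at h2 ⊢
      obtain ⟨t', ht', h'⟩ := hB (α + k) (by omega) (by omega)
      rcases h' with ⟨h5, h6⟩ | ⟨h5, h6⟩
      · have h7 := ih (by omega) t' ht' h5 h6
        have hok := hQ.ok t ht
        unfold Code.ok at hok
        by_contra hne
        have h8 : t.has L (α + k) := by unfold Code.has; left; omega
        have h9 : t'.has L (α + k) := by unfold Code.has; left; omega
        have h10 := hQ.uni t ht t' ht' _ _ h8 h9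
        subst h10
        omega
      · exact absurd ⟨by omega, t', ht', h5, h6⟩ (hmin k (by omega))
  have hsh : (s : ℤ) ≤ h := by
    by_contra hlt
    push Not at hlt
    obtain ⟨t', ht', h'⟩ := hB (α + h) (by omega) (by omega)
    rcases h' with ⟨h5, h6⟩ | ⟨h5, h6⟩
    · have h7 := low h.toNat (by omega) t' ht' h5 (by omega)
      have h8 := (hA' t' ht' h5).2.2
      omega
    · exact absurd ⟨by omega, t', ht', h5, by omega⟩ (hmin h.toNat (by omega))
  -- tiles in column `L`, below `s`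
  have low' : ∀ t ∈ Q, t.l = L → t.x0 < α + s → t.x1 = t.x0 := by
    intro t ht h1 h2
    have hok := hQ.ok t ht
    unfold Code.ok at hok
    have h3 := hA' t ht h1
    obtain ⟨t', ht', h'⟩ := hB t.x0 (by omega) (by omega)
    rcases h' with ⟨h5, h6⟩ | ⟨h5, h6⟩
    · have h7 := low (t.x0 - α).toNat (by omega) t' ht' h5 (by omega)
      have h8 : t.has L t.x0 := by unfold Code.has; left; omega
      have h9 : t'.has L t.x0 := by unfold Code.has; left; omega
      have h10 := hQ.uni t ht t' ht' _ _ h8 h9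
      subst h10
      exact h6
    · exact absurd ⟨by omega, t', ht', h5, by omega⟩ (hmin (t.x0 - α).toNat (by omega))
  have mid : ∀ k : ℕ, (s : ℤ) + k < h → ∀ t ∈ Q, t.l = L → t.x0 = α + s + k →
      t.x1 = t.x0 + 1 := by
    intro k
    induction k with
    | zero =>
      intro hk t ht h1 h2
      have hok := hQ.ok t ht
      unfold Code.ok at hok
      push_cast at h2 hk
      by_contra hne
      have h8 : t.has (L + 1) (α + s) := by unfold Code.has; right; left; omega
      have h9 : t0.has (L + 1) (α + s) := by unfold Code.has; left; omega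
      have h10 := hQ.uni t ht t0 ht0 _ _ h8 h9
      subst h10
      omega
    | succ k ih =>
      intro hk t ht h1 h2
      push_cast at h2 hk
      have hok := hQ.ok t ht
      unfold Code.ok at hok
      by_contra hne
      obtain ⟨t', ht', h5, h6⟩ := hA (α + s + k) (by omega) (by omega) (by omega)
      have h7 := ih (by omega) t' ht' h5 h6
      have h8 : t.has (L + 1) (α + s + k + 1) := by unfold Code.has; right; left; omega
      have h9 : t'.has (L + 1) (α + s + k + 1) := by unfold Code.has; right; left; omega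
      have h10 := hQ.uni t ht t' ht' _ _ h8 h9
      subst h10
      omega
  have high : ∀ k : ℕ, h < a - k → ∀ t ∈ Q, t.l = L → t.x0 = α + a - k → t.x1 = t.x0 := by
    intro k
    induction k with
    | zero =>
      intro hk t ht h1 h2
      have hok := hQ.ok t ht
      unfold Code.ok at hok
      push_cast at h2 hk
      have := hB' t ht h1
      omega
    | succ k ih =>
      intro hk t ht h1 h2
      push_cast at h2 hk
      have hok := hQ.ok t ht
      unfold Code.ok at hok
      by_contra hne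
      obtain ⟨t', ht', h5, h6⟩ := hA (α + a - k) (by omega) (by omega) (by omega)
      have h7 := ih (by omega) t' ht' h5 h6
      have h8 : t.has (L + 1) (α + a - k) := by unfold Code.has; right; left; omega
      have h9 : t'.has (L + 1) (α + a - k) := by unfold Code.has; right; left; omega
      have h10 := hQ.uni t ht t' ht' _ _ h8 h9
      subst h10
      omega
  have hcol : ∀ t ∈ Q, t.l = L → (((α + s ≤ t.x0 ∧ t.x0 < α + h) ∧ t.x1 = t.x0 + 1) ∨
        (¬ (α + s ≤ t.x0 ∧ t.x0 < α + h) ∧ t.x1 = t.x0)) := by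
    intro t ht h1
    have h2 := hA' t ht h1
    by_cases h3 : t.x0 < α + s
    · right; exact ⟨by omega, low' t ht h1 h3⟩
    · by_cases h4 : t.x0 < α + h
      · left
        exact ⟨by omega, mid (t.x0 - α - s).toNat (by omega) t ht h1 (by omega)⟩
      · right
        exact ⟨by omega, high (α + a - t.x0).toNat (by omega) t ht h1 (by omega)⟩
  -- uniqueness of the special tile
  have hsp : ∀ t ∈ Q, t.l = L + 1 → t = t0 := by
    intro t ht h1
    have h2 := hA1' t ht h1
    by_contra hne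
    have hx : t.x0 ≠ α + s := by
      intro h3
      apply hne
      apply hQ.uni t ht t0 ht0 (L + 1) (α + s)
      · unfold Code.has; left; exact ⟨h1, h3⟩
      · unfold Code.has; left; exact ⟨ht0l, ht0x⟩
    have hlow2 : ¬ t.x0 < α + s := by
      intro h3
      exact hmin (t.x0 - α).toNat (by omega) ⟨by omega, t, ht, h1, by omega⟩
    have h3 : t.has (L + 1) t.x0 := by unfold Code.has; left; exact ⟨h1, rfl⟩
    by_cases h4 : t.x0 ≤ α + h
    · obtain ⟨t', ht', h5, h6⟩ := hA (t.x0 - 1) (by omega) (by omega) (by omega)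
      have h7 := hcol t' ht' h5
      have h8 : t'.has (L + 1) t.x0 := by unfold Code.has; right; left; omega
      have h9 := hQ.uni t ht t' ht' _ _ h3 h8
      subst h9
      omega
    · obtain ⟨t', ht', h5, h6⟩ := hA t.x0 (by omega) (by omega) (by omega)
      have h7 := hcol t' ht' h5
      have h8 : t'.has (L + 1) t.x0 := by unfold Code.has; right; left; omega
      have h9 := hQ.uni t ht t' ht' _ _ h3 h8
      subst h9
      omega
  have ht01 := (hz t0 ht0).2 ht0l
  have ht0ok := hQ.ok t0 ht0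
  unfold Code.ok at ht0ok
  have ht0R : Rest (L + 3) t0.x2 := by
    have h1 := hQ.inR t0 ht0 _ _ t0.has2
    rw [ht0l, show L + 1 + 2 = L + 3 by ring] at h1
    exact (hc3 _ _ le_rfl).1 h1
  refine ⟨s, t0.x2, by omega, hsh, by omega, ht0R, {t | t ∈ Q ∧ L + 3 ≤ t.l}, ?_, ?_⟩
  · refine ⟨fun t ht => hQ.ok t ht.1, ?_, ?_, fun t ht t' ht' => hQ.uni t ht.1 t' ht'.1⟩
    · rintro t ⟨ht, htl⟩ l x htx
      have h1 := hQ.inR t ht l x htx
      have h2 : L + 3 ≤ l := by unfold Code.has at htx; omega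
      refine ⟨(hc3 l x h2).1 h1, ?_⟩
      rintro ⟨h3, h4⟩
      have h5 : t0.has (L + 3) t0.x2 := by unfold Code.has; right; right; omega
      rw [h3, h4] at htx
      have h6 := hQ.uni t ht t0 ht0 _ _ htx h5
      subst h6
      omega
    · rintro l x ⟨h1, h2⟩
      have h3 := hRest l x h1
      obtain ⟨t, ht, htx⟩ := hQ.cov l x ((hc3 l x h3).2 h1)
      refine ⟨t, ⟨ht, ?_⟩, htx⟩
      by_contra h4
      have h5 := hl t ht
      have h6 := hno t ht
      have h7 : t.l = L ∨ t.l = L + 1 := by omega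
      rcases h7 with h7 | h7
      · unfold Code.has at htx; omega
      · have h8 := hsp t ht h7
        subst h8
        unfold Code.has at htx
        omega
  · ext t
    constructor
    · intro ht
      have h5 := hl t ht
      have h6 := hno t ht
      by_cases h4 : L + 3 ≤ t.l
      · right; exact ⟨ht, h4⟩
      · left
        have h7 : t.l = L ∨ t.l = L + 1 := by omega
        rcases h7 with h7 | h7
        · left
          have h8 := hA' t ht h7
          exact ⟨h7, h8.1, h8.2.1, h8.2.2, hcol t ht h7, (hz t ht).1 h7⟩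
        · right
          have h8 := hsp t ht h7
          subst h8
          exact ⟨h7, ht0x, by omega, rfl⟩
    · rintro (ht | ht)
      · rcases ht with ⟨h1, h2, h3, h4, h5, h6⟩ | ⟨h1, h2, h3, h4⟩
        · obtain ⟨t', ht', h7, h8⟩ := hA t.x0 h2 h3 h4
          have h9 := hcol t' ht' h7
          have h10 := (hz t' ht').1 h7
          have : t = t' := by
            apply Code.ext <;> omega
          rw [this]; exact ht'
        · have : t = t0 := by
            apply Code.ext <;> omega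
          rw [this]; exact ht0
      · exact ht.1

/-- the decomposition is unique -/
theorem bt_union_inj (hRest : ∀ l x, Rest l x → L + 3 ≤ l) {s s' X X' : ℤ} {P P' : Set Code}
    (hP : IsT (rm (L + 3) X Rest) P) (hP' : IsT (rm (L + 3) X' Rest) P')
    (he : bt L α γ a h s X ∪ P = bt L α γ a h s' X' ∪ P') : s = s' ∧ X = X' ∧ P = P' := by
  have hPl : ∀ t ∈ P, L + 3 ≤ t.l := fun t ht => hRest _ _ (hP.inR t ht _ _ t.has0).1
  have hPl' : ∀ t ∈ P', L + 3 ≤ t.l := fun t ht => hRest _ _ (hP'.inR t ht _ _ t.has0).1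
  have hbl : ∀ s X, ∀ t ∈ bt L α γ a h s X, t.l < L + 3 := by
    rintro s X t (⟨h1, -⟩ | ⟨h1, -⟩) <;> omega
  have h1 : (⟨L + 1, α + s, α + s + γ, X⟩ : Code) ∈ bt L α γ a h s' X' ∪ P' := by
    rw [← he]; exact Or.inl (Or.inr ⟨rfl, rfl, rfl, rfl⟩)
  have h2 : s = s' ∧ X = X' := by
    rcases h1 with (⟨k1, -⟩ | ⟨k1, k2, k3, k4⟩) | h1
    · simp only at k1; omega
    · simp only at k1 k2 k3 k4; exact ⟨by omega, k4⟩
    · have := hPl' _ h1; simp only at this; omega
  refine ⟨h2.1, h2.2, ?_⟩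
  ext t
  constructor
  · intro ht
    have h3 : t ∈ bt L α γ a h s' X' ∪ P' := by rw [← he]; exact Or.inr ht
    rcases h3 with h3 | h3
    · have := hbl _ _ t h3; have := hPl t ht; omega
    · exact h3
  · intro ht
    have h3 : t ∈ bt L α γ a h s X ∪ P := by rw [he]; exact Or.inr ht
    rcases h3 with h3 | h3
    · have := hbl _ _ t h3; have := hPl' t ht; omega
    · exact h3

end

end Pool.Agent.LibBenzel
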