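import Pool.Agent.LibBenzel.Block

set_option autoImplicit false

namespace Pool.Agent.LibBenzel

open Finset

/-- the number of exact covers -/
noncomputable def cnt (R : ℤ → ℤ → Prop) : ℕ := Nat.card {P : Set Code // IsT R P}

section

variable {L α γ a : ℤ} {Rest : ℤ → ℤ → Prop}

theorem card_blk (hγ : γ = 0 ∨ γ = 1) (h : ℕ) (hha : (h : ℤ) ≤ a)
    (hRest : ∀ l x, Rest l x → L + 3 ≤ l)
    (hfin : ∀ X, Rest (L + 3) X → Finite {P : Set Code // IsT (rm (L + 3) X Rest) P})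
    (g : ℤ → ℕ) (hg : ∀ X, Rest (L + 3) X → cnt (rm (L + 3) X Rest) = g X)
    (hg0 : ∀ X, ¬ Rest (L + 3) X → g X = 0) :
    Finite {Q : Set Code // IsT (blk L α γ a h Rest) Q} ∧
      cnt (blk L α γ a h Rest) =
        ∑ s ∈ range (h + 1), (g (α + s + γ) + g (α + s + γ + 1)) := by
  classical
  let pos : Fin (h + 1) × Bool → ℤ := fun σ => α + (σ.1 : ℕ) + γ + (if σ.2 then 1 else 0)
  let F : Fin (h + 1) × Bool → Type := fun σ =>
    {P : Set Code // Rest (L + 3) (pos σ) ∧ IsT (rm (L + 3) (pos σ) Rest) P}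
  have hF : ∀ σ, Finite (F σ) ∧ Nat.card (F σ) = g (pos σ) := by
    intro σ
    by_cases hr : Rest (L + 3) (pos σ)
    · have h1 := hfin _ hr
      have e : F σ ≃ {P : Set Code // IsT (rm (L + 3) (pos σ) Rest) P} :=
        Equiv.subtypeEquivRight fun P => ⟨fun hx => hx.2, fun hx => ⟨hr, hx⟩⟩
      refine ⟨Finite.of_equiv _ e.symm, ?_⟩
      rw [Nat.card_congr e]
      exact hg _ hr
    · have : IsEmpty (F σ) := ⟨fun x => hr x.2.1⟩
      refine ⟨inferInstance, ?_⟩
      rw [hg0 _ hr]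
      exact Nat.card_of_isEmpty
  have hF1 : ∀ σ, Finite (F σ) := fun σ => (hF σ).1
  let φ : (Σ σ, F σ) → {Q : Set Code // IsT (blk L α γ a h Rest) Q} := fun y =>
    ⟨bt L α γ a h (y.1.1 : ℕ) (pos y.1) ∪ y.2.1, by
      obtain ⟨⟨s, ε⟩, P, hP⟩ := y
      have hs := s.2
      refine isT_blk_of hγ (by omega) hha hRest (by omega) ?_ ?_ hP.1 hP.2
      · simp only; omega
      · simp only [pos]
        cases ε
        · left; simp
        · right; simp⟩
  have hinj : Function.Injective φ := by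
    rintro ⟨σ, P, hP⟩ ⟨σ', P', hP'⟩ he
    have he' : bt L α γ a h (σ.1 : ℕ) (pos σ) ∪ P = bt L α γ a h (σ'.1 : ℕ) (pos σ') ∪ P' :=
      congrArg Subtype.val he
    obtain ⟨h1, h2, h3⟩ := bt_union_inj hRest hP.2 hP'.2 he'
    have h4 : σ = σ' := by
      obtain ⟨s, ε⟩ := σ
      obtain ⟨s', ε'⟩ := σ'
      simp only at h1
      have h5 : s = s' := Fin.ext (by exact_mod_cast h1)
      subst h5
      simp only [pos] at h2
      cases ε <;> cases ε' <;> simp at h2 ⊢
    subst h4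
    subst h3
    rfl
  have hsurj : Function.Surjective φ := by
    rintro ⟨Q, hQ⟩
    obtain ⟨s, X, hs0, hsh, hX, hR, P, hP, he⟩ := exists_of_isT_blk hγ (by omega) hha hRest hQ
    rcases hX with hX | hX
    · refine ⟨⟨(⟨s.toNat, by omega⟩, false), P, ?_⟩, ?_⟩
      · have : pos (⟨s.toNat, by omega⟩, false) = X := by simp only [pos]; simp; omega
        rw [this]; exact ⟨hR, hP⟩
      · apply Subtype.ext
        have h1 : pos (⟨s.toNat, by omega⟩, false) = X := by simp only [pos]; simp; omega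
        have h2 : ((s.toNat : ℕ) : ℤ) = s := by omega
        simp only [φ, h1, h2, he]
    · refine ⟨⟨(⟨s.toNat, by omega⟩, true), P, ?_⟩, ?_⟩
      · have : pos (⟨s.toNat, by omega⟩, true) = X := by simp only [pos]; simp; omega
        rw [this]; exact ⟨hR, hP⟩
      · apply Subtype.ext
        have h1 : pos (⟨s.toNat, by omega⟩, true) = X := by simp only [pos]; simp; omega
        have h2 : ((s.toNat : ℕ) : ℤ) = s := by omega
        simp only [φ, h1, h2, he]
  have e := Equiv.ofBijective φ ⟨hinj, hsurj⟩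
  refine ⟨Finite.of_equiv _ e, ?_⟩
  unfold cnt
  rw [← Nat.card_congr e, Nat.card_sigma, Fintype.sum_prod_type]
  rw [← Fin.sum_univ_eq_sum_range (fun s : ℕ => g (α + (s : ℕ) + γ) + g (α + (s : ℕ) + γ + 1))]
  apply Finset.sum_congr rfl
  intro s _
  rw [Fintype.sum_bool, (hF _).2, (hF _).2, add_comm]
  simp [pos]

end

/-- the tapering region -/
def tri (a : ℕ) (l x : ℤ) : Prop := -3 * (a : ℤ) ≤ l ∧ l ≤ 0 ∧ 2 * l - 2 ≤ 3 * x ∧ 3 * x ≤ l + 1

/-- Schroeder path numbers -/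
def sch : ℕ → ℕ → ℕ
  | 0, 0 => 1
  | 0, _ + 1 => 0
  | a + 1, 0 => sch a 0
  | a + 1, h + 1 => if h ≤ a then sch (a + 1) h + sch a h + sch a (h + 1) else 0

theorem sch_gt (a h : ℕ) (hah : a < h) : sch a h = 0 := by
  obtain ⟨h, rfl⟩ : ∃ k, h = k + 1 := ⟨h - 1, by omega⟩
  cases a with
  | zero => rw [sch]
  | succ a => rw [sch, if_neg (by omega)]

/-- the summand of the block formula -/
def gg (a : ℕ) (X : ℤ) : ℕ :=
  if 0 ≤ X + 2 * a ∧ X + 2 * a ≤ a then sch a (X + 2 * a).toNat else 0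

theorem sum_gg (a h : ℕ) (ha : h ≤ a + 1) :
    ∑ s ∈ range (h + 1), (gg a ((s : ℤ) - 2 * a - 1) + gg a ((s : ℤ) - 2 * a - 1 + 1)) =
      sch (a + 1) h := by
  have g1 : ∀ s : ℕ, gg a ((s : ℤ) - 2 * a - 1 + 1) = sch a s := by
    intro s
    unfold gg
    by_cases hs : s ≤ a
    · rw [if_pos (by omega)]
      congr 1; omega
    · rw [if_neg (by omega), sch_gt a s (by omega)]
  have g0 : gg a (((0 : ℕ) : ℤ) - 2 * a - 1) = 0 := by
    unfold gg
    rw [if_neg (by push_cast; omega)]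
  have g2 : ∀ s : ℕ, gg a (((s + 1 : ℕ) : ℤ) - 2 * a - 1) = sch a s := by
    intro s
    rw [← g1 s]
    congr 1
    push_cast; ring
  induction h with
  | zero =>
    rw [zero_add, sum_range_one, g0, g1, zero_add]
    rw [sch]
  | succ h ih =>
    rw [sum_range_succ, ih (by omega), g1, g2]
    rw [sch, if_pos (by omega)]
    ring

theorem rm_tri_eq (a h : ℕ) :
    rm (-3 * ((a + 1 : ℕ) : ℤ)) ((h : ℤ) - 2 * ((a + 1 : ℕ) : ℤ)) (tri (a + 1)) =
      blk (-3 * ((a + 1 : ℕ) : ℤ)) (-2 * ((a + 1 : ℕ) : ℤ)) 1 ((a + 1 : ℕ) : ℤ) h (tri a) := by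
  funext l x
  unfold rm tri blk
  apply propext
  beta_reduce
  push_cast
  constructor
  · intro hx; omega
  · intro hx; omega

theorem tri_low (a : ℕ) (l x : ℤ) (hx : tri a l x) : -3 * ((a + 1 : ℕ) : ℤ) + 3 ≤ l := by
  unfold tri at hx
  push_cast
  omega

theorem tri_first (a : ℕ) (X : ℤ) :
    tri a (-3 * ((a + 1 : ℕ) : ℤ) + 3) X ↔ (0 ≤ X + 2 * a ∧ X + 2 * a ≤ a) := by
  unfold tri
  push_cast
  constructor
  · intro hx; omega
  · intro hx; omega

theorem cnt_rm_tri : ∀ a h : ℕ, h ≤ a →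
    Finite {P : Set Code // IsT (rm (-3 * (a : ℤ)) ((h : ℤ) - 2 * a) (tri a)) P} ∧
      cnt (rm (-3 * (a : ℤ)) ((h : ℤ) - 2 * a) (tri a)) = sch a h := by
  intro a
  induction a with
  | zero =>
    intro h hh
    obtain rfl : h = 0 := by omega
    have hR : ∀ l x, ¬ rm (-3 * ((0 : ℕ) : ℤ)) (((0 : ℕ) : ℤ) - 2 * ((0 : ℕ) : ℤ)) (tri 0) l x := by
      intro l x
      unfold rm tri
      push_cast
      omega
    have hu : ∀ P : Set Code,
        IsT (rm (-3 * ((0 : ℕ) : ℤ)) (((0 : ℕ) : ℤ) - 2 * ((0 : ℕ) : ℤ)) (tri 0)) P ↔ P = ∅ := by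
      intro P
      constructor
      · intro hP
        rw [Set.eq_empty_iff_forall_notMem]
        intro t ht
        exact hR _ _ (hP.inR t ht _ _ t.has0)
      · rintro rfl
        exact ⟨fun t ht => absurd ht (Set.notMem_empty t), fun t ht => absurd ht (Set.notMem_empty t),
          fun l x hx => absurd hx (hR l x), fun t ht => absurd ht (Set.notMem_empty t)⟩
    have e : {P : Set Code // IsT (rm (-3 * ((0 : ℕ) : ℤ)) (((0 : ℕ) : ℤ) - 2 * ((0 : ℕ) : ℤ)) (tri 0)) P}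
        ≃ Unit :=
      { toFun := fun _ => ()
        invFun := fun _ => ⟨∅, (hu ∅).2 rfl⟩
        left_inv := fun P => Subtype.ext ((hu P.1).1 P.2).symm
        right_inv := fun _ => rfl }
    refine ⟨Finite.of_equiv _ e.symm, ?_⟩
    unfold cnt
    rw [Nat.card_congr e, Nat.card_unique, sch]
  | succ a ih =>
    intro h hh
    rw [rm_tri_eq]
    have key := card_blk (L := -3 * ((a + 1 : ℕ) : ℤ)) (α := -2 * ((a + 1 : ℕ) : ℤ)) (γ := 1)
      (a := ((a + 1 : ℕ) : ℤ)) (Rest := tri a) (Or.inr rfl) h (by exact_mod_cast hh)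
      (tri_low a) ?_ (gg a) ?_ ?_
    · refine ⟨key.1, ?_⟩
      rw [key.2, ← sum_gg a h hh]
      apply sum_congr rfl
      intro s _
      congr 2 <;> (push_cast; ring)
    · intro X hX
      rw [tri_first] at hX
      have h1 := (ih (X + 2 * a).toNat (by omega)).1
      rw [show ((X + 2 * a).toNat : ℤ) - 2 * a = X by omega] at h1
      rw [show (-3 * ((a + 1 : ℕ) : ℤ) + 3) = -3 * (a : ℤ) by push_cast; ring]
      exact h1
    · intro X hX
      rw [tri_first] at hX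
      have h1 := (ih (X + 2 * a).toNat (by omega)).2
      rw [show ((X + 2 * a).toNat : ℤ) - 2 * a = X by omega] at h1
      rw [show (-3 * ((a + 1 : ℕ) : ℤ) + 3) = -3 * (a : ℤ) by push_cast; ring, h1]
      unfold gg
      rw [if_pos hX]
    · intro X hX
      rw [tri_first] at hX
      unfold gg
      rw [if_neg hX]

/-- the internal form of the `(m+3, 2m+2)`-benzel -/
def bz (m : ℕ) : ℤ → ℤ → Prop := blk (-3 * ((m + 1 : ℕ) : ℤ)) (-2 * (m : ℤ) - 1) 0 m m (tri m)

theorem cnt_bz (m : ℕ) : Finite {P : Set Code // IsT (bz m) P} ∧ cnt (bz m) = sch (m + 1) m := by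
  unfold bz
  have key := card_blk (L := -3 * ((m + 1 : ℕ) : ℤ)) (α := -2 * (m : ℤ) - 1) (γ := 0)
    (a := (m : ℤ)) (Rest := tri m) (Or.inl rfl) m le_rfl
    (tri_low m) ?_ (gg m) ?_ ?_
  · refine ⟨key.1, ?_⟩
    rw [key.2, ← sum_gg m m (by omega)]
    apply sum_congr rfl
    intro s _
    congr 2 <;> ring
  · intro X hX
    rw [tri_first] at hX
    have h1 := (cnt_rm_tri m (X + 2 * m).toNat (by omega)).1
    rw [show ((X + 2 * m).toNat : ℤ) - 2 * m = X by omega] at h1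
    rw [show (-3 * ((m + 1 : ℕ) : ℤ) + 3) = -3 * (m : ℤ) by push_cast; ring]
    exact h1
  · intro X hX
    rw [tri_first] at hX
    have h1 := (cnt_rm_tri m (X + 2 * m).toNat (by omega)).2
    rw [show ((X + 2 * m).toNat : ℤ) - 2 * m = X by omega] at h1
    rw [show (-3 * ((m + 1 : ℕ) : ℤ) + 3) = -3 * (m : ℤ) by push_cast; ring, h1]
    unfold gg
    rw [if_pos hX]
  · intro X hX
    rw [tri_first] at hX
    unfold gg
    rw [if_neg hX]

theorem sch_diag (m : ℕ) : sch (m + 1) m + sch m m = sch (m + 1) (m + 1) := by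
  rw [sch, if_pos le_rfl, sch_gt m (m + 1) (by omega), add_zero]

end Pool.Agent.LibBenzel
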