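import Pool.Agent.LibBenzel.Count

set_option autoImplicit false

namespace Pool.Agent.LibBenzel

/-- lattice paths from `(0,0)` to `(a,h)` with steps `(1,0)`, `(0,1)`, `(1,1)` that never go above
the diagonal, given by their lists of steps -/
def pathsTo (a h : ℕ) : Set (List (ℕ × ℕ)) :=
  {p | (∀ s ∈ p, s = (1, 0) ∨ s = (0, 1) ∨ s = (1, 1)) ∧
    (∀ q, q <+: p → q.sum.2 ≤ q.sum.1) ∧ p.sum = (a, h)}

theorem pathsTo_gt (a h : ℕ) (hah : a < h) : pathsTo a h = ∅ := by
  rw [Set.eq_empty_iff_forall_notMem]
  rintro p ⟨-, h2, h3⟩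
  have := h2 p (List.prefix_refl p)
  rw [h3] at this
  simp only at this
  omega

theorem append_mem {p : List (ℕ × ℕ)} {s : ℕ × ℕ} {a h : ℕ} :
    p ++ [s] ∈ pathsTo a h ↔ (s = (1, 0) ∨ s = (0, 1) ∨ s = (1, 1)) ∧ h ≤ a ∧
      ∃ a' h', p ∈ pathsTo a' h' ∧ (a', h') + s = (a, h) := by
  constructor
  · rintro ⟨h1, h2, h3⟩
    refine ⟨h1 s (by simp), ?_, p.sum.1, p.sum.2, ⟨fun t ht => h1 t (by simp [ht]), fun q hq =>
      h2 q (hq.trans (List.prefix_append p [s])), rfl⟩, ?_⟩
    · have := h2 _ (List.prefix_refl _)
      rw [h3] at this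
      exact this
    · rw [← h3, List.sum_append, List.sum_singleton]
  · rintro ⟨h1, h2, a', h', ⟨k1, k2, k3⟩, h4⟩
    refine ⟨?_, ?_, ?_⟩
    · intro t ht
      rw [List.mem_append, List.mem_singleton] at ht
      rcases ht with ht | rfl
      · exact k1 t ht
      · exact h1
    · intro q hq
      rw [List.prefix_concat_iff] at hq
      rcases hq with rfl | hq
      · rw [List.sum_append, List.sum_singleton, k3, h4]
        exact h2
      · exact k2 q hq
    · rw [List.sum_append, List.sum_singleton, k3, h4]

theorem pathsTo_zero : pathsTo 0 0 = {[]} := by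
  ext p
  rw [Set.mem_singleton_iff]
  constructor
  · intro hp
    rcases List.eq_nil_or_concat' p with h | ⟨q, s, rfl⟩
    · exact h
    · exfalso
      rw [append_mem] at hp
      obtain ⟨h1, -, a', h', -, h4⟩ := hp
      rw [Prod.ext_iff] at h4
      rcases h1 with rfl | rfl | rfl <;> simp at h4
  · rintro rfl
    refine ⟨by simp, ?_, rfl⟩
    intro q hq
    rw [List.prefix_nil] at hq
    rw [hq]; simp

theorem pathsTo_ne {a h : ℕ} (h0 : 0 < a) (hh : h ≤ a) :
    pathsTo a h = (fun p => p ++ [(1, 0)]) '' pathsTo (a - 1) h ∪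
      ((if 0 < h then (fun p => p ++ [(0, 1)]) '' pathsTo a (h - 1) else ∅) ∪
      (if 0 < h then (fun p => p ++ [(1, 1)]) '' pathsTo (a - 1) (h - 1) else ∅)) := by
  ext p
  constructor
  · intro hp
    rcases List.eq_nil_or_concat' p with rfl | ⟨q, s, rfl⟩
    · exfalso
      have := hp.2.2
      rw [List.sum_nil, Prod.ext_iff] at this
      have h9 := this.1
      simp only [Prod.fst_zero] at h9
      omega
    · rw [append_mem] at hp
      obtain ⟨h1, -, a', h', h3, h4⟩ := hp
      rw [Prod.ext_iff] at h4
      rcases h1 with rfl | rfl | rfl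
      · left
        refine ⟨q, ?_, rfl⟩
        simp at h4
        rw [show a - 1 = a' by omega, ← h4.2]; exact h3
      · right; left
        simp at h4
        rw [if_pos (by omega)]
        refine ⟨q, ?_, rfl⟩
        rw [show h - 1 = h' by omega, ← h4.1]; exact h3
      · right; right
        simp at h4
        rw [if_pos (by omega)]
        refine ⟨q, ?_, rfl⟩
        rw [show h - 1 = h' by omega, show a - 1 = a' by omega]; exact h3
  · rintro (⟨q, hq, rfl⟩ | hp | hp)
    · exact append_mem.2 ⟨by simp, hh, a - 1, h, hq, by simp; omega⟩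
    · split_ifs at hp with h1
      · obtain ⟨q, hq, rfl⟩ := hp
        exact append_mem.2 ⟨by simp, hh, a, h - 1, hq, by simp; omega⟩
      · exact absurd hp (Set.notMem_empty p)
    · split_ifs at hp with h1
      · obtain ⟨q, hq, rfl⟩ := hp
        exact append_mem.2 ⟨by simp, hh, a - 1, h - 1, hq, by simp; omega⟩
      · exact absurd hp (Set.notMem_empty p)

theorem app_inj (s : ℕ × ℕ) : Function.Injective (fun p : List (ℕ × ℕ) => p ++ [s]) :=
  fun _ _ h => List.append_cancel_right h

theorem card_paths : ∀ a h : ℕ, (pathsTo a h).Finite ∧ (pathsTo a h).ncard = sch a h := by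
  intro a
  induction a with
  | zero =>
    intro h
    cases h with
    | zero =>
      rw [pathsTo_zero]
      exact ⟨Set.finite_singleton _, by rw [Set.ncard_singleton, sch]⟩
    | succ h =>
      rw [pathsTo_gt _ _ (by omega), sch_gt _ _ (by omega)]
      exact ⟨Set.finite_empty, Set.ncard_empty _⟩
  | succ a iha =>
    intro h
    induction h with
    | zero =>
      rw [pathsTo_ne (by omega) (by omega), if_neg (by omega), if_neg (by omega),
        Set.union_empty, Set.union_empty, Nat.add_sub_cancel]
      refine ⟨(iha 0).1.image _, ?_⟩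
      rw [Set.ncard_image_of_injective _ (app_inj _), (iha 0).2, sch]
    | succ h ihh =>
      by_cases hh : h + 1 ≤ a + 1
      · rw [pathsTo_ne (by omega) hh, if_pos (by omega), if_pos (by omega), Nat.add_sub_cancel,
          Nat.add_sub_cancel]
        have f1 := (iha (h + 1)).1.image (fun p : List (ℕ × ℕ) => p ++ [(1, 0)])
        have f2 := ihh.1.image (fun p : List (ℕ × ℕ) => p ++ [(0, 1)])
        have f3 := (iha h).1.image (fun p : List (ℕ × ℕ) => p ++ [(1, 1)])
        refine ⟨f1.union (f2.union f3), ?_⟩
        rw [Set.ncard_union_eq ?_ f1 (f2.union f3), Set.ncard_union_eq ?_ f2 f3,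
          Set.ncard_image_of_injective _ (app_inj _), Set.ncard_image_of_injective _ (app_inj _),
          Set.ncard_image_of_injective _ (app_inj _), (iha _).2, (iha _).2, ihh.2, sch,
          if_pos (by omega)]
        · ring
        · rw [Set.disjoint_left]
          rintro p ⟨q, -, rfl⟩ ⟨q', -, h'⟩
          have := List.append_inj_right' h' rfl
          simp at this
        · rw [Set.disjoint_left]
          rintro p ⟨q, -, rfl⟩ (⟨q', -, h'⟩ | ⟨q', -, h'⟩)
          · have := List.append_inj_right' h' rfl
            simp at this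
          · have := List.append_inj_right' h' rfl
            simp at this
      · rw [pathsTo_gt _ _ (by omega), sch_gt _ _ (by omega)]
        exact ⟨Set.finite_empty, Set.ncard_empty _⟩

end Pool.Agent.LibBenzel
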